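import Pool.Agent.Lib.MP_9a49d2_co.Hex

set_option autoImplicit false
open MeasureTheory Set

namespace Pool.Agent.Lib.MP_9a49d2_co

def cs : Fin 4 → ℚ := ![1, -1, 4 / 5, -4 / 5]
def sn : Fin 4 → ℚ := ![0, 0, 3 / 5, -3 / 5]
def ex : Fin 4 → ℚ := ![0, 483, 3048 / 5, 1477 / 5]
def ey : Fin 4 → ℚ := ![0, 1134, -6039 / 5, 114 / 5]

theorem cs_sn (j : Fin 4) : (cs j : ℝ) ^ 2 + (sn j : ℝ) ^ 2 = 1 := by
  fin_cases j <;> simp [cs, sn] <;> norm_num

def tx (i : Fin 4 × ℤ × ℤ) : ℚ := ex i.1 + 2000 * i.2.1 - 422 * i.2.2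
def ty (i : Fin 4 × ℤ × ℤ) : ℚ := ey i.1 + 2319 * i.2.2

/-- the rigid motions placing the copies -/
def G (i : Fin 4 × ℤ × ℤ) : ℝ × ℝ → ℝ × ℝ :=
  aff (cs i.1) (-sn i.1) (sn i.1) (cs i.1) (tx i) (ty i)

def ginv (i : Fin 4 × ℤ × ℤ) (q : ℚ × ℚ) : ℚ × ℚ :=
  (cs i.1 * (q.1 - tx i) + sn i.1 * (q.2 - ty i), -sn i.1 * (q.1 - tx i) + cs i.1 * (q.2 - ty i))

theorem G_ginv (i : Fin 4 × ℤ × ℤ) (q : ℚ × ℚ) : G i (cq (ginv i q)) = cq q := by
  have h := cs_sn i.1
  ext
  · simp only [G, aff, cq, ginv]; push_cast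
    linear_combination ((q.1 : ℝ) - tx i) * h
  · simp only [G, aff, cq, ginv]; push_cast
    linear_combination ((q.2 : ℝ) - ty i) * h

def inK (q : ℚ × ℚ) : Bool :=
  (W.zip W.tail).any fun bc => decide (0 < dq (184, -7) bc.1 bc.2) &&
    decide (0 ≤ dq (184, -7) bc.1 q) && decide (0 ≤ dq bc.1 bc.2 q) && decide (0 ≤ dq bc.2 (184, -7) q)

theorem K0_convex : Convex ℝ K0 := convex_convexHull ℝ _

theorem W_mem {w : ℚ × ℚ} (h : w ∈ W) : cq w ∈ K0 := subset_convexHull ℝ _ ⟨w, h, rfl⟩

theorem inK_sound {q : ℚ × ℚ} (h : inK q = true) : cq q ∈ K0 := by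
  simp only [inK, List.any_eq_true, Bool.and_eq_true, decide_eq_true_eq] at h
  obtain ⟨⟨b, c⟩, hm, ⟨⟨h0, h1⟩, h2⟩, h3⟩ := h
  obtain ⟨hb, hc⟩ := List.of_mem_zip hm
  refine Tri_sub K0_convex (W_mem (w := (184, -7)) (by simp [W])) (W_mem hb)
    (W_mem (List.mem_of_mem_tail hc)) (mem_Tri_of_dt ?_ ?_ ?_ ?_) <;> rw [dq_cast] <;>
    exact_mod_cast ‹_›

inductive Cert where
  | leaf (j : Fin 4) (m n : ℤ) : Cert
  | rot (x : Cert) : Cert
  | split (t : ℚ) (l r : Cert) : Cert

def mid (t : ℚ) (b c : ℚ × ℚ) : ℚ × ℚ := (b.1 + t * (c.1 - b.1), b.2 + t * (c.2 - b.2))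

def check : Cert → ℚ × ℚ → ℚ × ℚ → ℚ × ℚ → Bool
  | .leaf j m n, a, b, c => inK (ginv (j, m, n) a) && inK (ginv (j, m, n) b) && inK (ginv (j, m, n) c)
  | .rot x, a, b, c => check x b c a
  | .split t l r, a, b, c => decide (0 < t) && decide (t < 1) && check l a b (mid t b c) &&
      check r a (mid t b c) c

theorem Tri_rot (a b c : ℝ × ℝ) : Tri a b c ⊆ Tri b c a := by
  rintro _ ⟨⟨u, v⟩, ⟨hu, hv, huv⟩, rfl⟩
  simp only at hu hv huv
  refine mem_Tri v (1 - u - v) hv (by linarith) (by linarith) ?_ ?_ <;> simp only [aff] <;> ring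

theorem Tri_split (a b c d : ℝ × ℝ) (t : ℝ) (h0 : 0 < t) (h1 : t < 1)
    (e1 : d.1 = b.1 + t * (c.1 - b.1)) (e2 : d.2 = b.2 + t * (c.2 - b.2)) :
    Tri a b c ⊆ Tri a b d ∪ Tri a d c := by
  rintro _ ⟨⟨u, v⟩, ⟨hu, hv, huv⟩, rfl⟩
  simp only at hu hv huv
  have h2 : 0 < 1 - t := by linarith
  rcases le_total (v * (1 - t)) (u * t) with h | h
  · left
    refine mem_Tri (u - v * (1 - t) / t) (v / t) ?_ (by positivity) ?_ ?_ ?_
    · rw [sub_nonneg, div_le_iff₀ h0]; exact h
    · have : u - v * (1 - t) / t + v / t = u + v := by field_simp; ring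
      linarith
    · simp only [aff, e1]; field_simp; ring
    · simp only [aff, e2]; field_simp; ring
  · right
    refine mem_Tri (u / (1 - t)) (v - u * t / (1 - t)) (by positivity) ?_ ?_ ?_ ?_
    · rw [sub_nonneg, div_le_iff₀ h2]; exact h
    · have : u / (1 - t) + (v - u * t / (1 - t)) = u + v := by field_simp; ring
      linarith
    · simp only [aff, e1]; field_simp; ring
    · simp only [aff, e2]; field_simp; ring

theorem check_sound : ∀ (x : Cert) (a b c : ℚ × ℚ), check x a b c = true →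
    Tri (cq a) (cq b) (cq c) ⊆ ⋃ i, G i '' K0
  | .leaf j m n, a, b, c, h => by
      simp only [check, Bool.and_eq_true] at h
      obtain ⟨⟨ha, hb⟩, hc⟩ := h
      refine subset_iUnion_of_subset (j, m, n) (Tri_sub (convex_aff _ _ _ _ _ _ K0_convex) ?_ ?_ ?_)
      · exact ⟨_, inK_sound ha, G_ginv _ _⟩
      · exact ⟨_, inK_sound hb, G_ginv _ _⟩
      · exact ⟨_, inK_sound hc, G_ginv _ _⟩
  | .rot x, a, b, c, h => (Tri_rot _ _ _).trans (check_sound x b c a h)
  | .split t l r, a, b, c, h => by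
      simp only [check, Bool.and_eq_true, decide_eq_true_eq] at h
      obtain ⟨⟨⟨h0, h1⟩, hl⟩, hr⟩ := h
      refine (Tri_split _ _ _ (cq (mid t b c)) t (by exact_mod_cast h0) (by exact_mod_cast h1)
        (by simp [cq, mid]) (by simp [cq, mid])).trans
        (union_subset (check_sound l _ _ _ hl) (check_sound r _ _ _ hr))

def cert1 : Cert :=
  (.split (2567 / 189321)
  (.rot (.split (2567 / 336567)
  (.leaf 1 1 0)
  (.split (1466921113202207 / 1619783476418000)
  (.leaf 0 0 0)
  (.rot (.split (2399 / 26000)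
  (.leaf 1 0 0)
  (.leaf 0 0 0))))))
  (.split (26770450 / 179563971)
  (.rot (.split (7648700 / 100108463)
  (.leaf 1 1 0)
  (.rot (.split (454181079 / 4849651127)
  (.rot (.split (2301296864297208817 / 12950482067331192113724)
  (.leaf 1 0 0)
  (.rot (.split (21369285424174 / 24323128637079)
  (.leaf 0 0 0)
  (.leaf 1 0 0)))))
  (.rot (.split (3804021485537 / 11824890200000)
  (.rot (.rot (.split (1466921113202207 / 1479370167645216)
  (.leaf 0 0 0)
  (.leaf 1 1 0))))
  (.leaf 0 0 0)))))))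
  (.rot (.split (53266 / 141459)
  (.rot (.rot (.split (157659275095 / 274942739338)
  (.split (25254057193876234 / 36454450565291185)
  (.rot (.rot (.split (16690118907 / 60190580000)
  (.split (69477194025 / 90494167148)
  (.rot (.rot (.split (464637147437 / 1537684128572)
  (.leaf 3 1 1)
  (.split (1030626770898516693 / 3131589967554561731)
  (.leaf 3 1 1)
  (.split (639637244956785819131 / 1313715469988364486626)
  (.leaf 2 0 1)
  (.rot (.split (7454980 / 8197899)
  (.leaf 3 0 1)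
  (.leaf 2 0 1))))))))
  (.leaf 3 1 1))
  (.split (142619110392 / 23639291553637)
  (.leaf 3 1 1)
  (.rot (.rot (.split (32160994055 / 41587030873)
  (.leaf 1 1 0)
  (.rot (.split (1225462714146 / 103510119842897)
  (.leaf 3 1 1)
  (.leaf 1 1 0))))))))))
  (.rot (.rot (.split (9477714002385 / 20244098528714)
  (.split (1015184756518634057230 / 1970573204982546729939)
  (.rot (.rot (.split (164884173790121 / 225544725436166)
  (.leaf 2 0 1)
  (.leaf 3 0 1))))
  (.leaf 2 0 1))
  (.leaf 3 1 1)))))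
  (.rot (.split (96456799 / 155217124)
  (.rot (.rot (.split (221332122935 / 224047173453)
  (.leaf 2 0 1)
  (.split (5134269280 / 10040650677)
  (.rot (.split (17953512818304 / 1865887905932585)
  (.leaf 0 0 1)
  (.leaf 2 0 1)))
  (.rot (.rot (.split (1847934393114281 / 1865887905932585)
  (.split (967136544014382080673391 / 978096999757894410132395)
  (.rot (.rot (.split (124153884 / 6658681649)
  (.leaf 0 0 1)
  (.leaf 2 0 1))))
  (.leaf 0 0 1))
  (.leaf 0 0 1))))))))
  (.rot (.split (60660551646045 / 225544725436166)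
  (.leaf 3 0 1)
  (.leaf 2 0 1))))))))
  (.rot (.rot (.split (3436313 / 4261280)
  (.rot (.split (18211 / 224756)
  (.rot (.rot (.split (1344866 / 1408325)
  (.rot (.rot (.split (23683797315981 / 31542731586077)
  (.split (91000481695364903748271 / 131844859909544870593263)
  (.leaf 0 0 0)
  (.rot (.split (277023846606797 / 308566578192874)
  (.leaf 1 1 0)
  (.leaf 0 0 0))))
  (.rot (.rot (.split (31542731586077 / 308566578192874)
  (.rot (.rot (.split (3085603099 / 3347371474)
  (.leaf 1 1 0)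
  (.leaf 3 1 1))))
  (.leaf 1 1 0)))))))
  (.leaf 0 0 0))))
  (.rot (.split (4383726567 / 38952619643)
  (.leaf 1 0 0)
  (.rot (.split (1719091217200 / 3568370142443)
  (.rot (.split (27699995225725677059991080057 / 1022265560929265549876835753836)
  (.rot (.split (2674294281657518578939338211139733927 / 17619111674772729957225649384760845546)
  (.leaf 0 0 0)
  (.leaf 1 1 0)))
  (.rot (.split (112953637556653146 / 123594241194632221)
  (.leaf 0 0 0)
  (.rot (.split (14944817393115211378286311173621111619 / 17619111674772729957225649384760845546)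
  (.leaf 1 1 0)
  (.leaf 0 0 0)))))))
  (.leaf 0 0 0)))))))
  (.rot (.split (30492866 / 148957977)
  (.leaf 3 0 1)
  (.rot (.split (1942051 / 2088707)
  (.rot (.split (37973787 / 631166575)
  (.rot (.rot (.split (8398690847 / 8475110564)
  (.rot (.split (663 / 22483)
  (.rot (.rot (.split (11983544 / 12010727)
  (.leaf 1 0 0)
  (.leaf 0 0 0))))
  (.leaf 1 0 0)))
  (.split (183160805537 / 14302484974569)
  (.rot (.split (1257798 / 41496553)
  (.leaf 0 0 0)
  (.rot (.split (21820 / 22483)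
  (.leaf 3 1 1)
  (.leaf 0 0 0)))))
  (.leaf 3 1 1)))))
  (.leaf 1 0 0)))
  (.rot (.rot (.split (187242903481762 / 199492188193675)
  (.leaf 3 0 1)
  (.rot (.split (242119427 / 16064074952)
  (.leaf 3 1 1)
  (.leaf 3 0 1)))))))))))))))))

def cert2 : Cert :=
  (.split (1848177 / 5161693)
  (.rot (.rot (.split (189823 / 2038000)
  (.rot (.rot (.split (84151540265 / 102898809241)
  (.rot (.rot (.split (1665115706563 / 18815199612570)
  (.split (79112190 / 125487899)
  (.rot (.rot (.split (1634600484660631318 / 1818572751208569013)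
  (.leaf 2 1 1)
  (.rot (.split (231830385 / 663557248)
  (.leaf 0 1 1)
  (.leaf 2 1 1))))))
  (.rot (.split (65958136723481 / 168146292923401)
  (.leaf 1 1 1)
  (.leaf 2 1 1))))
  (.rot (.rot (.split (2845026512934460 / 3194779565544619)
  (.split (221136101116 / 324034910357)
  (.rot (.rot (.split (19678525102487760173773 / 19699371340530743281017)
  (.leaf 3 1 1)
  (.leaf 2 1 1))))
  (.leaf 3 1 1))
  (.rot (.split (211629413 / 16830308053)
  (.leaf 1 1 1)
  (.leaf 3 1 1)))))))))
  (.split (1120674571504795 / 1201861731995944)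
  (.rot (.rot (.split (36998398749503201 / 493785354094857643)
  (.leaf 0 1 1)
  (.split (834771865811567740791817094339 / 35806670092907663395406669476497)
  (.leaf 0 1 1)
  (.rot (.rot (.split (26113954409558011513327509939744 / 30394294000722605550362286176029)
  (.leaf 2 1 1)
  (.rot (.split (665502838637887749051986277715 / 128798759716997756364916822267378)
  (.leaf 0 1 1)
  (.leaf 2 1 1))))))))))
  (.leaf 0 1 1)))))
  (.split (80065 / 616059)
  (.rot (.rot (.split (105639726508906 / 106714230979023)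
  (.rot (.split (16106 / 240195)
  (.rot (.rot (.split (424152970132 / 466514984583)
  (.leaf 2 0 1)
  (.rot (.rot (.split (1007 / 8250)
  (.leaf 0 1 1)
  (.rot (.split (1623076627 / 1813156096)
  (.split (18005632 / 85532587)
  (.rot (.rot (.split (481533 / 2035283)
  (.leaf 2 1 1)
  (.split (10712 / 122831)
  (.leaf 2 1 1)
  (.leaf 1 1 1)))))
  (.leaf 2 1 1))
  (.leaf 0 1 1)))))))))
  (.leaf 2 0 1)))
  (.rot (.split (58322249 / 269498790)
  (.leaf 0 1 1)
  (.rot (.split (89859689 / 109705063)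
  (.split (45799819 / 45801819)
  (.leaf 1 1 1)
  (.leaf 0 1 1))
  (.leaf 0 1 1))))))))
  (.rot (.split (15474755614 / 2613279769929)
  (.leaf 0 0 1)
  (.split (1514372674439488 / 242939525307699127)
  (.leaf 0 0 1)
  (.leaf 2 0 1))))))))
  (.rot (.split (1605411 / 3255103)
  (.rot (.rot (.split (176498106989 / 766161110068)
  (.leaf 3 1 1)
  (.leaf 1 1 0))))
  (.split (972405430 / 1802700933)
  (.leaf 3 1 1)
  (.rot (.split (4070985975556 / 22238930760591)
  (.split (17546516370106299 / 260985334011934214)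
  (.rot (.rot (.split (323135081 / 333025197)
  (.leaf 2 1 1)
  (.leaf 0 1 1))))
  (.leaf 2 1 1))
  (.leaf 3 1 1)))))))

theorem check1 : check cert1 (0, 0) (2000, 0) (0, 2319) = true := by decide +kernel

theorem check2 : check cert2 (2000, 2319) (0, 2319) (2000, 0) = true := by decide +kernel

theorem covers (p : ℝ × ℝ) : ∃ i, p ∈ G i '' K0 := by
  set n : ℤ := ⌊p.2 / 2319⌋ with hn
  set m : ℤ := ⌊(p.1 + 422 * n) / 2000⌋ with hm
  have n1 : (n : ℝ) ≤ p.2 / 2319 := Int.floor_le _
  have n2 : p.2 / 2319 < n + 1 := Int.lt_floor_add_one _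
  have m1 : (m : ℝ) ≤ (p.1 + 422 * n) / 2000 := Int.floor_le _
  have m2 : (p.1 + 422 * n) / 2000 < m + 1 := Int.lt_floor_add_one _
  clear_value n m
  set u : ℝ := (p.1 + 422 * n) / 2000 - m with hu
  set v : ℝ := p.2 / 2319 - n with hv
  have key : (2000 * u, 2319 * v) ∈ ⋃ i, G i '' K0 := by
    rcases le_total (u + v) 1 with h | h
    · refine check_sound _ _ _ _ check1 (mem_Tri u v (by linarith) (by linarith) h ?_ ?_) <;>
        simp [cq] <;> ring
    · refine check_sound _ _ _ _ check2 (mem_Tri (1 - u) (1 - v) (by linarith) (by linarith)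
        (by linarith) ?_ ?_) <;> simp [cq] <;> ring
  obtain ⟨⟨j, m0, n0⟩, w, hw, e⟩ := mem_iUnion.mp key
  refine ⟨(j, m0 + m, n0 + n), w, hw, ?_⟩
  have e1 := congrArg Prod.fst e
  have e2 := congrArg Prod.snd e
  simp only [G, aff, tx, ty] at e1 e2 ⊢
  push_cast at e1 e2 ⊢
  ext
  · simp only; linarith
  · simp only; linarith

end Pool.Agent.Lib.MP_9a49d2_co
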