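import Pool.Agent.Lib.MP_9a49d2_co.Vol

set_option autoImplicit false
open MeasureTheory Set

namespace Pool.Agent.Lib.MP_9a49d2_co

/-- cast of a rational point -/
def cq (p : ℚ × ℚ) : ℝ × ℝ := ((p.1 : ℝ), (p.2 : ℝ))

def dq (a b c : ℚ × ℚ) : ℚ := (b.1 - a.1) * (c.2 - a.2) - (c.1 - a.1) * (b.2 - a.2)

theorem dq_cast (a b c : ℚ × ℚ) : dt (cq a) (cq b) (cq c) = (dq a b c : ℝ) := by
  simp [dt, dq, cq]

/-- the eleven vertices, counterclockwise -/
def W : List (ℚ × ℚ) :=
  [(184, -7), (199, -17), (1888, -10), (2000, 0), (1837, 132), (483, 1134), (386, 1199),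
    (325, 1238), (301, 1154), (299, 1141), (186, 19)]

def pts (l : List (ℚ × ℚ)) : Set (ℝ × ℝ) := cq '' {w | w ∈ l}

theorem pts_finite (l : List (ℚ × ℚ)) : (pts l).Finite := (List.finite_toSet l).image _

theorem pts_cons (a : ℚ × ℚ) (l : List (ℚ × ℚ)) : pts (a :: l) = insert (cq a) (pts l) := by
  simp [pts, ofPred_or, image_insert_eq]

/-- the polygon -/
def K0 : Set (ℝ × ℝ) := convexHull ℝ (pts W)

def fan (b : ℚ × ℚ) : List (ℚ × ℚ) → ℚ
  | p :: a :: r => dq p a b + fan b (a :: r)
  | _ => 0

def chk (b : ℚ × ℚ) : List (ℚ × ℚ) → Bool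
  | p :: a :: r => decide (0 < dq p a b) &&
      (b :: a :: r).all (fun s => decide (0 ≤ dq p a s) && decide (0 ≤ dq p s b)) && chk b (a :: r)
  | _ => true

theorem vol_pair (p b : ℝ × ℝ) : volume (convexHull ℝ {p, b}) = 0 := by
  have h : convexHull ℝ {p, b} ⊆ Tri p p b := by
    rw [convexHull_pair]
    rintro _ ⟨u, v, hu, hv, huv, rfl⟩
    obtain rfl : u = 1 - v := by linarith
    refine mem_Tri 0 v le_rfl hv (by linarith) ?_ ?_ <;> simp <;> ring
  have := (measure_mono h).trans (vol_Tri p p b)
  simpa [dt] using this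

theorem fan_bound (b : ℚ × ℚ) : ∀ l : List (ℚ × ℚ), chk b l = true →
    0 ≤ fan b l ∧ volume (convexHull ℝ (pts (b :: l))) ≤ ENNReal.ofReal ((fan b l : ℝ) / 2)
  | [], _ => by
      refine ⟨le_rfl, ?_⟩
      have := vol_pair (cq b) (cq b)
      rw [pts_cons]
      simp [pts]
  | [p], _ => by
      refine ⟨le_rfl, ?_⟩
      have := vol_pair (cq b) (cq p)
      rw [pts_cons, pts_cons]
      simp only [pts, List.not_mem_nil, ofPred_false, image_empty, insert_empty_eq, this, zero_le]
  | p :: a :: r, h => by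
      simp only [chk, Bool.and_eq_true, decide_eq_true_eq, List.all_eq_true] at h
      obtain ⟨⟨h1, h2⟩, h3⟩ := h
      obtain ⟨i1, i2⟩ := fan_bound b (a :: r) h3
      refine ⟨by simp only [fan]; linarith, ?_⟩
      have e : pts (b :: p :: a :: r) = insert (cq p) (pts (b :: a :: r)) := by
        simp only [pts_cons]; exact insert_comm _ _ _
      have h1' : 0 < dt (cq p) (cq a) (cq b) := by rw [dq_cast]; exact_mod_cast h1
      have sub := hull_insert_sub (p := cq p) (a := cq a) (b := cq b) (S := pts (b :: a :: r))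
        ⟨a, by simp, rfl⟩ ⟨b, by simp, rfl⟩ h1' (by
          rintro _ ⟨s, hs, rfl⟩
          obtain ⟨k1, k2⟩ := h2 s hs
          rw [dq_cast, dq_cast]
          exact ⟨by exact_mod_cast k1, by exact_mod_cast k2⟩)
      rw [e]
      refine (measure_mono sub).trans ((measure_union_le _ _).trans ?_)
      refine (add_le_add i2 (vol_Tri _ _ _)).trans ?_
      have i1' : (0 : ℝ) ≤ fan b (a :: r) := by exact_mod_cast i1
      rw [← ENNReal.ofReal_add (by positivity) (by positivity), abs_of_pos h1', dq_cast]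
      apply le_of_eq; congr 1
      simp only [fan]; push_cast; ring

def okSub : List (ℚ × ℚ) → Bool
  | [] => true
  | b :: l => decide (5 < l.length) || (chk b l && decide (fan b l ≤ 2318579))

theorem all_ok : W.sublists.all okSub = true := by decide +kernel

theorem W_nodup : W.Nodup := by decide +kernel

theorem hex_W (B : List (ℚ × ℚ)) (hB : ∀ w ∈ B, w ∈ W) (hl : B.length ≤ 6) :
    volume (convexHull ℝ (pts B)) ≤ ENNReal.ofReal (2318579 / 2) := by
  let T := W.filter (fun w => decide (w ∈ B))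
  have e : pts B = pts T := by
    unfold pts; congr 1; ext w
    simp only [T, mem_ofPred_eq, List.mem_filter, decide_eq_true_eq]
    exact ⟨fun h => ⟨hB w h, h⟩, fun h => h.2⟩
  have hT : T.length ≤ 6 := by
    refine le_trans (List.Subperm.length_le (List.subperm_of_subset (W_nodup.filter _) ?_)) hl
    intro w hw
    simpa using (List.mem_filter.mp hw).2
  have ok : okSub T = true :=
    List.all_eq_true.mp all_ok T (List.mem_sublists.mpr List.filter_sublist)
  rw [e]
  clear_value T
  cases T with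
  | nil => simp [pts]
  | cons b l =>
    simp only [okSub, Bool.or_eq_true, decide_eq_true_eq, Bool.and_eq_true] at ok
    rcases ok with ok | ⟨o1, o2⟩
    · simp at hT; omega
    · refine (fan_bound b l o1).2.trans (ENNReal.ofReal_le_ofReal ?_)
      have : (fan b l : ℝ) ≤ 2318579 := by exact_mod_cast o2
      linarith

theorem hex_mix : ∀ (A : List (ℝ × ℝ)) (B : List (ℚ × ℚ)), (∀ p ∈ A, p ∈ K0) → (∀ w ∈ B, w ∈ W) →
    A.length + B.length ≤ 6 →
    volume (convexHull ℝ ({p | p ∈ A} ∪ pts B)) ≤ ENNReal.ofReal (2318579 / 2)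
  | [], B, _, hB, hl => by simpa using hex_W B hB (by simpa using hl)
  | p :: A, B, hA, hB, hl => by
      have e : ∀ p : ℝ × ℝ, {q | q ∈ p :: A} ∪ pts B = insert p ({q | q ∈ A} ∪ pts B) := by
        intro p; ext q; simp [or_assoc]
      rw [e]
      rcases ({q | q ∈ A} ∪ pts B).eq_empty_or_nonempty with he | hne
      · rw [he]; simp
      have cv := convex_sublevel ((List.finite_toSet A).union (pts_finite B)) hne
        (ENNReal.ofReal (2318579 / 2))
      refine convexHull_min ?_ cv (hA p (by simp))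
      rintro _ ⟨w, hw, rfl⟩
      have := hex_mix A (w :: B) (fun q hq => hA q (by simp [hq]))
        (by intro x hx; rcases List.mem_cons.mp hx with rfl | hx
            · exact hw
            · exact hB x hx) (by simp at hl ⊢; omega)
      rw [pts_cons, union_insert] at this
      exact this

theorem hex_bound (p : Fin 6 → ℝ × ℝ) (hp : ∀ j, p j ∈ K0) :
    volume (convexHull ℝ (range p)) ≤ ENNReal.ofReal (2318579 / 2) := by
  have := hex_mix (List.ofFn p) [] (by
    intro q hq
    obtain ⟨j, rfl⟩ := List.mem_ofFn.mp hq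
    exact hp j) (by simp) (by simp)
  have e : {q | q ∈ List.ofFn p} ∪ pts [] = range p := by
    ext q; simp [pts, -List.ofFn_succ, List.mem_ofFn]
  rwa [e] at this

end Pool.Agent.Lib.MP_9a49d2_co
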