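import Pool.Agent.Lib.MP_9a49d2_co.Cover

set_option autoImplicit false
open MeasureTheory Set

namespace Pool.Agent.Lib.MP_9a49d2_co

abbrev E2 := EuclideanSpace ℝ (Fin 2)

/-- coordinates -/
noncomputable def ψ : E2 ≃L[ℝ] ℝ × ℝ :=
  (EuclideanSpace.equiv (Fin 2) ℝ).trans (ContinuousLinearEquiv.finTwoArrow ℝ ℝ)

theorem ψ_apply (p : E2) : ψ p = (p 0, p 1) := rfl

theorem ψ_mp : MeasurePreserving ψ volume volume :=
  (volume_preserving_finTwoArrow ℝ).comp (PiLp.volume_preserving_ofLp (Fin 2))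

theorem vol_ψ {S : Set (ℝ × ℝ)} (h : MeasurableSet S) : volume (ψ ⁻¹' S) = volume S :=
  ψ_mp.measure_preimage h.nullMeasurableSet

theorem dist_sq_ψ (p q : E2) :
    dist p q = Real.sqrt (((ψ p).1 - (ψ q).1) ^ 2 + ((ψ p).2 - (ψ q).2) ^ 2) := by
  rw [EuclideanSpace.dist_eq, Fin.sum_univ_two, ψ_apply, ψ_apply]
  simp [Real.dist_eq, sq_abs]

/-- the rigid motions as isometries of the Euclidean plane -/
noncomputable def gE (i : Fin 4 × ℤ × ℤ) : E2 ≃ᵢ E2 where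
  toFun p := ψ.symm (G i (ψ p))
  invFun p := ψ.symm (aff (cs i.1) (sn i.1) (-sn i.1) (cs i.1)
    (-(cs i.1 * tx i + sn i.1 * ty i)) (sn i.1 * tx i - cs i.1 * ty i) (ψ p))
  left_inv p := by
    have h := cs_sn i.1
    apply ψ.injective
    simp only [ContinuousLinearEquiv.apply_symm_apply]
    ext
    · simp only [G, aff]; linear_combination (ψ p).1 * h
    · simp only [G, aff]; linear_combination (ψ p).2 * h
  right_inv p := by
    have h := cs_sn i.1
    apply ψ.injective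
    simp only [ContinuousLinearEquiv.apply_symm_apply]
    ext
    · simp only [G, aff]; linear_combination ((ψ p).1 - tx i) * h
    · simp only [G, aff]; linear_combination ((ψ p).2 - ty i) * h
  isometry_toFun := by
    refine Isometry.of_dist_eq fun p q => ?_
    have h := cs_sn i.1
    rw [dist_sq_ψ, dist_sq_ψ p q]
    simp only [ContinuousLinearEquiv.apply_symm_apply, G, aff]
    congr 1
    linear_combination (((ψ p).1 - (ψ q).1) ^ 2 + ((ψ p).2 - (ψ q).2) ^ 2) * h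

theorem ψ_gE (i : Fin 4 × ℤ × ℤ) (p : E2) : ψ (gE i p) = G i (ψ p) :=
  ψ.apply_symm_apply _

/-- the convex disk -/
def KE : Set E2 := ψ ⁻¹' K0

theorem gE_image (i : Fin 4 × ℤ × ℤ) : gE i '' KE = ψ ⁻¹' (G i '' K0) := by
  ext x
  constructor
  · rintro ⟨p, hp, rfl⟩
    exact ⟨ψ p, hp, (ψ_gE i p).symm⟩
  · rintro ⟨w, hw, e⟩
    refine ⟨ψ.symm w, by simpa [KE] using hw, ψ.injective ?_⟩
    rw [ψ_gE, ψ.apply_symm_apply, e]

theorem K0_compact : IsCompact K0 := (pts_finite W).isCompact_convexHull ℝ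

theorem KE_convex : Convex ℝ KE := K0_convex.linear_preimage (ψ : E2 →ₗ[ℝ] ℝ × ℝ)

theorem KE_compact : IsCompact KE := ψ.toHomeomorph.isCompact_preimage.mpr K0_compact

theorem KE_interior : (interior KE).Nonempty := by
  have ho : IsOpen (ψ ⁻¹' (Ioo (500 : ℝ) 600 ×ˢ Ioo (300 : ℝ) 400)) :=
    (isOpen_Ioo.prod isOpen_Ioo).preimage ψ.continuous
  have hs : ψ ⁻¹' (Ioo (500 : ℝ) 600 ×ˢ Ioo (300 : ℝ) 400) ⊆ KE := by
    refine preimage_mono ?_
    rintro ⟨x, y⟩ ⟨⟨h1, h2⟩, h3, h4⟩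
    simp only at h1 h2 h3 h4
    refine Tri_sub K0_convex (W_mem (w := (184, -7)) (by simp [W]))
      (W_mem (w := (2000, 0)) (by simp [W])) (W_mem (w := (325, 1238)) (by simp [W]))
      (mem_Tri_of_dt ?_ ?_ ?_ ?_) <;> simp only [dt, cq] <;> push_cast <;> linarith
  refine ⟨ψ.symm (550, 350), interior_maximal hs ho ?_⟩
  simp only [mem_preimage, ContinuousLinearEquiv.apply_symm_apply]
  refine ⟨⟨?_, ?_⟩, ?_, ?_⟩ <;> norm_num

theorem gE_cover : (⋃ i, gE i '' KE) = univ := by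
  refine eq_univ_of_forall fun x => ?_
  obtain ⟨i, hi⟩ := covers (ψ x)
  exact mem_iUnion.mpr ⟨i, by rw [gE_image]; exact hi⟩

theorem vol_copy (i : Fin 4 × ℤ × ℤ) : volume (gE i '' KE) = volume KE := by
  rw [gE_image, KE, G, vol_ψ K0_compact.measurableSet,
    vol_ψ (K0_compact.image (cont_aff _ _ _ _ _ _)).measurableSet, vol_aff]
  have h := cs_sn i.1
  have : (cs i.1 : ℝ) * cs i.1 - -(sn i.1 : ℝ) * sn i.1 = 1 := by linear_combination h
  rw [this]; simp

theorem hexE (p : Fin 6 → E2) (hp : ∀ j, p j ∈ KE) :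
    volume (convexHull ℝ (range p)) ≤ ENNReal.ofReal (2318579 / 2) := by
  have h1 : convexHull ℝ (range p) ⊆ ψ ⁻¹' convexHull ℝ (range (ψ ∘ p)) := by
    refine convexHull_min ?_ ((convex_convexHull ℝ _).linear_preimage (ψ : E2 →ₗ[ℝ] ℝ × ℝ))
    rintro _ ⟨j, rfl⟩
    exact subset_convexHull ℝ _ ⟨j, rfl⟩
  refine (measure_mono h1).trans ?_
  rw [vol_ψ ((finite_range _).isCompact_convexHull ℝ).measurableSet]
  exact hex_bound _ hp

/-- disjoint rectangles, one per copy -/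
def Rc (i : Fin 4 × ℤ × ℤ) : Set (ℝ × ℝ) :=
  Ico (2000 * i.2.1 - 422 * i.2.2 : ℝ) (2000 * i.2.1 - 422 * i.2.2 + 2000) ×ˢ
    Ico (2319 / 4 * (4 * i.2.2 + (i.1 : ℕ)) : ℝ) (2319 / 4 * (4 * i.2.2 + (i.1 : ℕ) + 1))

theorem Rc_meas (i : Fin 4 × ℤ × ℤ) : MeasurableSet (Rc i) :=
  measurableSet_Ico.prod measurableSet_Ico

theorem Rc_vol (i : Fin 4 × ℤ × ℤ) : volume (Rc i) = ENNReal.ofReal 1159500 := by
  rw [Rc, Measure.volume_eq_prod, Measure.prod_prod, Real.volume_Ico, Real.volume_Ico,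
    ← ENNReal.ofReal_mul (by linarith)]
  congr 1; ring

theorem Rc_disj : Pairwise (Function.onFun Disjoint Rc) := by
  rintro ⟨j, m, n⟩ ⟨j', m', n'⟩ hne
  refine disjoint_left.mpr ?_
  rintro ⟨x, y⟩ ⟨⟨a1, a2⟩, a3, a4⟩ ⟨⟨b1, b2⟩, b3, b4⟩
  simp only at a1 a2 a3 a4 b1 b2 b3 b4
  apply hne
  have h1 : (4 * n + (j : ℕ) : ℝ) < 4 * n' + (j' : ℕ) + 1 := by linarith
  have h2 : (4 * n' + (j' : ℕ) : ℝ) < 4 * n + (j : ℕ) + 1 := by linarith
  have h1' : 4 * n + (j : ℕ) < 4 * n' + (j' : ℕ) + 1 := by exact_mod_cast h1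
  have h2' : 4 * n' + (j' : ℕ) < 4 * n + (j : ℕ) + 1 := by exact_mod_cast h2
  have hj := j.2
  have hj' := j'.2
  obtain rfl : n = n' := by omega
  obtain rfl : j = j' := Fin.ext (by omega)
  have h3 : (m : ℝ) < m' + 1 := by linarith
  have h4 : (m' : ℝ) < m + 1 := by linarith
  have h3' : m < m' + 1 := by exact_mod_cast h3
  have h4' : m' < m + 1 := by exact_mod_cast h4
  obtain rfl : m = m' := by omega
  rfl

theorem Rc_ball (i : Fin 4 × ℤ × ℤ) (r : ℝ) (h : gE i '' KE ⊆ Metric.ball 0 r) :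
    ψ ⁻¹' Rc i ⊆ Metric.ball 0 (r + 10000) := by
  obtain ⟨j, m, n⟩ := i
  intro q hq
  have hw : ψ.symm (cq (2000, 0)) ∈ KE := by
    simpa [KE] using W_mem (w := (2000, 0)) (by simp [W])
  have h1 := h ⟨_, hw, rfl⟩
  have h2 : dist q (gE (j, m, n) (ψ.symm (cq (2000, 0)))) ≤ 10000 := by
    rw [dist_sq_ψ, ψ_gE, ψ.apply_symm_apply]
    obtain ⟨⟨a1, a2⟩, a3, a4⟩ := hq
    refine Real.sqrt_le_iff.mpr ⟨by norm_num, ?_⟩
    have b1 : |(ψ q).1 - (G (j, m, n) (cq (2000, 0))).1| ≤ 6000 := by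
      rw [abs_le]
      fin_cases j <;> simp [G, aff, cq, cs, sn, tx, ex] at a1 a2 ⊢ <;> constructor <;> linarith
    have b2 : |(ψ q).2 - (G (j, m, n) (cq (2000, 0))).2| ≤ 6000 := by
      rw [abs_le]
      fin_cases j <;> simp [G, aff, cq, cs, sn, ty, ey] at a3 a4 ⊢ <;> constructor <;> linarith
    have c1 := sq_le_sq' (abs_le.mp b1).1 (abs_le.mp b1).2
    have c2 := sq_le_sq' (abs_le.mp b2).1 (abs_le.mp b2).2
    linarith
  rw [Metric.mem_ball] at h1 ⊢
  linarith [dist_triangle q (gE (j, m, n) (ψ.symm (cq (2000, 0)))) 0]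

theorem count_le (r : ℝ) :
    (∑' i : {i : Fin 4 × ℤ × ℤ // gE i '' KE ⊆ Metric.ball (0 : E2) r}, volume (gE i.1 '' KE))
      ≤ volume KE / ENNReal.ofReal 1159500 * volume (Metric.ball (0 : E2) (r + 10000)) := by
  have h1 : ∀ i, volume (gE i '' KE) =
      volume KE / ENNReal.ofReal 1159500 * volume (ψ ⁻¹' Rc i) := by
    intro i
    rw [vol_copy, vol_ψ (Rc_meas i), Rc_vol, ENNReal.div_mul_cancel (by simp) (by simp)]
  simp only [h1]
  rw [ENNReal.tsum_mul_left, ← measure_iUnion]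
  · gcongr
    refine iUnion_subset fun i => Rc_ball i.1 r (by simpa only [h1] using i.2)
  · intro a b hab
    exact (Rc_disj (fun h => hab (Subtype.ext h))).preimage _
  · intro i
    exact (Rc_meas _).preimage ψ.continuous.measurable

theorem liminf_le :
    Filter.liminf (fun r : ℝ =>
      (∑' i : {i : Fin 4 × ℤ × ℤ // gE i '' KE ⊆ Metric.ball (0 : E2) r}, volume (gE i.1 '' KE))
        / volume (Metric.ball (0 : E2) r)) Filter.atTop
      ≤ volume KE / ENNReal.ofReal 1159300 := by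
  refine Filter.liminf_le_of_frequently_le' (Filter.Eventually.frequently ?_)
  filter_upwards [Filter.eventually_ge_atTop (1000000000 : ℝ)] with r hr
  refine ENNReal.div_le_of_le_mul ((count_le r).trans ?_)
  rw [EuclideanSpace.volume_ball_fin_two, EuclideanSpace.volume_ball_fin_two, ← mul_assoc,
    ← mul_assoc]
  gcongr ?_ * _
  rw [div_eq_mul_inv, div_eq_mul_inv, mul_assoc, mul_assoc]
  gcongr _ * ?_
  rw [← ENNReal.ofReal_inv_of_pos (by norm_num), ← ENNReal.ofReal_inv_of_pos (by norm_num),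
    ← ENNReal.ofReal_pow (by linarith), ← ENNReal.ofReal_pow (by linarith),
    ← ENNReal.ofReal_mul (by norm_num), ← ENNReal.ofReal_mul (by norm_num)]
  refine ENNReal.ofReal_le_ofReal ?_
  nlinarith

theorem strict : volume KE / ENNReal.ofReal 1159300 < volume KE / ENNReal.ofReal (2318579 / 2) := by
  have h0 : volume KE ≠ 0 := (Measure.measure_pos_of_nonempty_interior volume KE_interior).ne'
  have h1 : volume KE ≠ ⊤ := KE_compact.measure_lt_top.ne
  rw [div_eq_mul_inv, div_eq_mul_inv]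
  refine ENNReal.mul_lt_mul_right h0 h1 ?_
  rw [ENNReal.inv_lt_inv, ENNReal.ofReal_lt_ofReal_iff (by norm_num)]
  norm_num

end Pool.Agent.Lib.MP_9a49d2_co
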