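import Mathlib

set_option autoImplicit false
open MeasureTheory Set

namespace Pool.Agent.Lib.MP_9a49d2_co

/-- affine self-map of the coordinate plane -/
def aff (a b c d e f : ℝ) (p : ℝ × ℝ) : ℝ × ℝ := (a * p.1 + b * p.2 + e, c * p.1 + d * p.2 + f)

theorem vol_aff (a b c d e f : ℝ) (S : Set (ℝ × ℝ)) :
    volume (aff a b c d e f '' S) = ENNReal.ofReal |a * d - b * c| * volume S := by
  let l : (ℝ × ℝ) →ₗ[ℝ] (ℝ × ℝ) :=
    Matrix.toLin (Module.Basis.finTwoProd ℝ) (Module.Basis.finTwoProd ℝ) !![a, b; c, d]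
  have h1 : aff a b c d e f '' S = (fun q => q + (e, f)) '' (l '' S) := by
    rw [image_image]
    refine image_congr fun p _ => ?_
    simp [l, aff, Matrix.toLin_finTwoProd_apply]
  rw [h1, image_add_right, measure_preimage_add_right, Measure.addHaar_image_linearMap]
  simp [l, LinearMap.det_toLin, Matrix.det_fin_two_of]

theorem cont_aff (a b c d e f : ℝ) : Continuous (aff a b c d e f) := by
  unfold aff; fun_prop

theorem convex_aff (a b c d e f : ℝ) {S : Set (ℝ × ℝ)} (h : Convex ℝ S) :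
    Convex ℝ (aff a b c d e f '' S) := by
  rintro _ ⟨x, hx, rfl⟩ _ ⟨y, hy, rfl⟩ u v hu hv huv
  refine ⟨u • x + v • y, h hx hy hu hv huv, ?_⟩
  obtain rfl : v = 1 - u := by linarith
  ext <;> simp [aff] <;> ring

/-- twice the signed area -/
def dt (a b c : ℝ × ℝ) : ℝ := (b.1 - a.1) * (c.2 - a.2) - (c.1 - a.1) * (b.2 - a.2)

def T0 : Set (ℝ × ℝ) := {p | 0 ≤ p.1 ∧ 0 ≤ p.2 ∧ p.1 + p.2 ≤ 1}

def Tri (a b c : ℝ × ℝ) : Set (ℝ × ℝ) :=
  aff (b.1 - a.1) (c.1 - a.1) (b.2 - a.2) (c.2 - a.2) a.1 a.2 '' T0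

theorem vol_T0 : volume T0 ≤ ENNReal.ofReal (1 / 2) := by
  have hm : MeasurableSet T0 := by
    have : IsClosed T0 := by
      have h1 : IsClosed {p : ℝ × ℝ | 0 ≤ p.1} := isClosed_le (by fun_prop) (by fun_prop)
      have h2 : IsClosed {p : ℝ × ℝ | 0 ≤ p.2} := isClosed_le (by fun_prop) (by fun_prop)
      have h3 : IsClosed {p : ℝ × ℝ | p.1 + p.2 ≤ 1} := isClosed_le (by fun_prop) (by fun_prop)
      exact h1.inter (h2.inter h3)
    exact this.measurableSet
  rw [Measure.volume_eq_prod, Measure.prod_apply hm]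
  have h1 : ∀ x : ℝ, volume (Prod.mk x ⁻¹' T0) ≤
      (Ioc (0 : ℝ) 1 ∪ {0}).indicator (fun x => ENNReal.ofReal (1 - x)) x := by
    intro x
    by_cases hx : x ∈ Ioc (0 : ℝ) 1 ∪ {0}
    · rw [indicator_of_mem hx]
      have : Prod.mk x ⁻¹' T0 ⊆ Icc 0 (1 - x) := by
        rintro y ⟨h1, h2, h3⟩
        exact ⟨h2, by simp at h3; linarith⟩
      simpa using measure_mono (μ := volume) this
    · have : Prod.mk x ⁻¹' T0 = ∅ := by
        refine eq_empty_of_forall_notMem ?_
        rintro y ⟨h1, h2, h3⟩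
        apply hx
        simp only at h1 h2 h3
        rcases h1.eq_or_lt with h | h
        · right; simp [← h]
        · left; exact ⟨h, by linarith⟩
      simp [this]
  refine (lintegral_mono h1).trans ?_
  rw [lintegral_indicator (measurableSet_Ioc.union (measurableSet_singleton _))]
  refine (lintegral_union_le _ _ _).trans ?_
  rw [setLIntegral_measure_zero {(0 : ℝ)} _ (by simp), add_zero]
  rw [← ofReal_integral_eq_lintegral_ofReal]
  · rw [← intervalIntegral.integral_of_le (by norm_num)]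
    rw [intervalIntegral.integral_sub (by simp) (by simp)]
    norm_num
  · exact (Continuous.integrableOn_Icc (by fun_prop)).mono_set Ioc_subset_Icc_self
  · filter_upwards [ae_restrict_mem measurableSet_Ioc] with x hx
    simp [hx.2]

theorem vol_Tri (a b c : ℝ × ℝ) : volume (Tri a b c) ≤ ENNReal.ofReal (|dt a b c| / 2) := by
  rw [Tri, vol_aff]
  refine (mul_le_mul_right vol_T0 _).trans ?_
  rw [← ENNReal.ofReal_mul (abs_nonneg _)]
  apply le_of_eq
  congr 1
  unfold dt; ring

theorem mem_Tri {a b c x : ℝ × ℝ} (u v : ℝ) (hu : 0 ≤ u) (hv : 0 ≤ v) (huv : u + v ≤ 1)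
    (h1 : x.1 = a.1 + u * (b.1 - a.1) + v * (c.1 - a.1))
    (h2 : x.2 = a.2 + u * (b.2 - a.2) + v * (c.2 - a.2)) : x ∈ Tri a b c := by
  refine ⟨(u, v), ⟨hu, hv, huv⟩, ?_⟩
  ext
  · simp only [aff, h1]; ring
  · simp only [aff, h2]; ring

theorem Tri_sub {a b c : ℝ × ℝ} {K : Set (ℝ × ℝ)} (hK : Convex ℝ K) (ha : a ∈ K) (hb : b ∈ K)
    (hc : c ∈ K) : Tri a b c ⊆ K := by
  rintro _ ⟨⟨u, v⟩, ⟨hu, hv, huv⟩, rfl⟩
  simp only at hu hv huv
  have := hK.sum_mem (t := Finset.univ) (w := ![1 - u - v, u, v]) (z := ![a, b, c])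
    (by intro i _; fin_cases i <;> simp <;> linarith) (by simp [Fin.sum_univ_three]; ring)
    (by intro i _; fin_cases i <;> simpa)
  convert this using 1
  ext <;> simp [aff, Fin.sum_univ_three] <;> ring

theorem mem_Tri_of_dt {a b c x : ℝ × ℝ} (h : 0 < dt a b c) (h1 : 0 ≤ dt a b x) (h2 : 0 ≤ dt b c x)
    (h3 : 0 ≤ dt c a x) : x ∈ Tri a b c := by
  refine mem_Tri (dt c a x / dt a b c) (dt a b x / dt a b c) (by positivity) (by positivity) ?_ ?_ ?_
  · rw [← add_div, div_le_one h]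
    have : dt a b c = dt a b x + dt b c x + dt c a x := by unfold dt; ring
    linarith
  · field_simp; unfold dt; ring
  · field_simp; unfold dt; ring

theorem mem_hull_insert {p x : ℝ × ℝ} {S : Set (ℝ × ℝ)} (hS : S.Nonempty)
    (hx : x ∈ convexHull ℝ (insert p S)) :
    ∃ s ∈ convexHull ℝ S, ∃ l : ℝ, 0 ≤ l ∧ l ≤ 1 ∧ x = (1 - l) • p + l • s := by
  rw [convexHull_insert hS, mem_convexJoin] at hx
  obtain ⟨q, hq, s, hs, u, v, hu, hv, huv, rfl⟩ := hx
  obtain rfl : q = p := hq
  exact ⟨s, hs, v, hv, by linarith, by rw [show 1 - v = u by linarith]⟩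

theorem hull_insert_sub {p a b : ℝ × ℝ} {S : Set (ℝ × ℝ)} (ha : a ∈ S) (hb : b ∈ S)
    (h : 0 < dt p a b) (hS : ∀ s ∈ S, 0 ≤ dt p a s ∧ 0 ≤ dt p s b) :
    convexHull ℝ (insert p S) ⊆ convexHull ℝ S ∪ Tri p a b := by
  intro x hx
  obtain ⟨s, hs, l, hl0, hl1, rfl⟩ := mem_hull_insert ⟨a, ha⟩ hx
  have hc : Convex ℝ {s : ℝ × ℝ | 0 ≤ dt p a s ∧ 0 ≤ dt p s b} := by
    rintro y ⟨y1, y2⟩ z ⟨z1, z2⟩ u v hu hv huv
    obtain rfl : v = 1 - u := by linarith
    constructor
    · have : dt p a (u • y + (1 - u) • z) = u * dt p a y + (1 - u) * dt p a z := by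
        simp [dt]; ring
      rw [this]; positivity
    · have : dt p (u • y + (1 - u) • z) b = u * dt p y b + (1 - u) * dt p z b := by
        simp [dt]; ring
      rw [this]; positivity
  obtain ⟨s1, s2⟩ := convexHull_min hS hc hs
  set D := dt p a b with hD
  set α := dt p s b / D with hα
  set β := dt p a s / D with hβ
  have α0 : 0 ≤ α := by positivity
  have β0 : 0 ≤ β := by positivity
  have e1 : s.1 = p.1 + α * (a.1 - p.1) + β * (b.1 - p.1) := by
    rw [hα, hβ]; field_simp; rw [hD]; unfold dt; ring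
  have e2 : s.2 = p.2 + α * (a.2 - p.2) + β * (b.2 - p.2) := by
    rw [hα, hβ]; field_simp; rw [hD]; unfold dt; ring
  clear_value α β
  by_cases hk : l * (α + β) ≤ 1
  · right
    refine mem_Tri (l * α) (l * β) (by positivity) (by positivity) (by linarith) ?_ ?_
    · simp [e1]; ring
    · simp [e2]; ring
  · left
    push Not at hk
    have k1 : 1 < α + β := by nlinarith
    have k0 : 0 < α + β - 1 := by linarith
    have := (convex_convexHull ℝ S).sum_mem (t := Finset.univ)
      (w := ![(1 - l) * α / (α + β - 1), (1 - l) * β / (α + β - 1), (l * (α + β) - 1) / (α + β - 1)])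
      (z := ![a, b, s])
      (by
        intro i _
        have : 0 ≤ 1 - l := by linarith
        have : 0 ≤ l * (α + β) - 1 := by linarith
        fin_cases i <;> simp only [Fin.zero_eta, Fin.mk_one, Fin.reduceFinMk, Matrix.cons_val_zero,
          Matrix.cons_val_one, Matrix.cons_val] <;> positivity)
      (by simp only [Fin.sum_univ_three, Matrix.cons_val_zero, Matrix.cons_val_one, Matrix.cons_val]
          field_simp; ring)
      (by intro i _
          fin_cases i
          · exact subset_convexHull ℝ S ha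
          · exact subset_convexHull ℝ S hb
          · exact hs)
    convert this using 1
    ext
    · simp [Fin.sum_univ_three, e1]; field_simp; ring
    · simp [Fin.sum_univ_three, e2]; field_simp; ring

theorem slice_le {A B C : Set (ℝ × ℝ)} (hA : MeasurableSet A) (hB : IsCompact B) (hC : IsCompact C)
    (cB : Convex ℝ B) (cC : Convex ℝ C) {u v : ℝ} (hu : 0 ≤ u) (hv : 0 ≤ v)
    (h : ∀ x ∈ A, ∃ y z : ℝ, (x.1, y) ∈ B ∧ (x.1, z) ∈ C ∧ x.2 = u * y + v * z) :
    volume A ≤ ENNReal.ofReal u * volume B + ENNReal.ofReal v * volume C := by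
  have key : ∀ {B : Set (ℝ × ℝ)}, IsCompact B → Convex ℝ B → ∀ x y : ℝ, (x, y) ∈ B →
      ∃ p q : ℝ, p ≤ q ∧ Prod.mk x ⁻¹' B = Icc p q := by
    intro B hB cB x y hy
    have h1 : IsCompact (Prod.mk x ⁻¹' B) := by
      have h2 : IsClosed (Prod.mk x ⁻¹' B) := hB.isClosed.preimage (by fun_prop)
      refine (hB.image continuous_snd).of_isClosed_subset h2 ?_
      intro z hz
      exact ⟨(x, z), hz, rfl⟩
    have h2 : Convex ℝ (Prod.mk x ⁻¹' B) := by
      intro a ha b hb s t hs ht hst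
      have := cB ha hb hs ht hst
      obtain rfl : t = 1 - s := by linarith
      show (x, _) ∈ B
      convert this using 1
      ext <;> simp
      ring
    have h3 := eq_Icc_of_connected_compact (h2.isConnected ⟨y, hy⟩) h1
    refine ⟨_, _, ?_, h3⟩
    have : y ∈ Prod.mk x ⁻¹' B := hy
    rw [h3] at this
    exact this.1.trans this.2
  rw [Measure.volume_eq_prod, Measure.prod_apply hA, Measure.prod_apply hB.measurableSet,
    Measure.prod_apply hC.measurableSet,
    ← lintegral_const_mul _ (measurable_measure_prodMk_left hB.measurableSet),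
    ← lintegral_const_mul _ (measurable_measure_prodMk_left hC.measurableSet),
    ← lintegral_add_left ((measurable_measure_prodMk_left hB.measurableSet).const_mul _)]
  refine lintegral_mono fun x => ?_
  rcases (Prod.mk x ⁻¹' A).eq_empty_or_nonempty with he | ⟨w, hw⟩
  · simp [he]
  obtain ⟨y0, z0, hy0, hz0, -⟩ := h _ hw
  obtain ⟨p, q, hpq, eB⟩ := key hB cB x y0 hy0
  obtain ⟨p', q', hpq', eC⟩ := key hC cC x z0 hz0
  have : Prod.mk x ⁻¹' A ⊆ Icc (u * p + v * p') (u * q + v * q') := by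
    intro w hw
    obtain ⟨y, z, hy, hz, e⟩ := h _ hw
    have hy' : y ∈ Icc p q := by rw [← eB]; exact hy
    have hz' : z ∈ Icc p' q' := by rw [← eC]; exact hz
    simp only at e
    rw [e]
    constructor
    · exact add_le_add (mul_le_mul_of_nonneg_left hy'.1 hu) (mul_le_mul_of_nonneg_left hz'.1 hv)
    · exact add_le_add (mul_le_mul_of_nonneg_left hy'.2 hu) (mul_le_mul_of_nonneg_left hz'.2 hv)
  refine (measure_mono this).trans ?_
  simp only [eB, eC, Real.volume_Icc]
  rw [← ENNReal.ofReal_mul hu, ← ENNReal.ofReal_mul hv, ← ENNReal.ofReal_add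
    (mul_nonneg hu (by linarith)) (mul_nonneg hv (by linarith))]
  apply le_of_eq; congr 1; ring

theorem convex_sublevel {S : Set (ℝ × ℝ)} (hS : S.Finite) (hne : S.Nonempty) (h : ENNReal) :
    Convex ℝ {p : ℝ × ℝ | volume (convexHull ℝ (insert p S)) ≤ h} := by
  intro p hp q hq u v hu hv huv
  by_cases hpq : p = q
  · subst hpq
    rw [← add_smul, huv, one_smul]; exact hp
  set d1 := q.1 - p.1 with hd1
  set d2 := q.2 - p.2 with hd2
  have hD : 0 < d1 ^ 2 + d2 ^ 2 := by
    by_contra hc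
    apply hpq
    have h1 : d1 = 0 := by nlinarith [sq_nonneg d1, sq_nonneg d2]
    have h2 : d2 = 0 := by nlinarith [sq_nonneg d1, sq_nonneg d2]
    ext <;> linarith
  let Ψ := aff (-d2) d1 d1 d2 0 0
  have cpt : ∀ p : ℝ × ℝ, IsCompact (Ψ '' convexHull ℝ (insert p S)) := fun p =>
    ((hS.insert p).isCompact_convexHull ℝ).image (cont_aff _ _ _ _ _ _)
  have cvx : ∀ p : ℝ × ℝ, Convex ℝ (Ψ '' convexHull ℝ (insert p S)) := fun p =>
    convex_aff _ _ _ _ _ _ (convex_convexHull ℝ _)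
  have main := slice_le (cpt (u • p + v • q)).measurableSet (cpt p) (cpt q) (cvx p) (cvx q) hu hv (by
    rintro _ ⟨x, hx, rfl⟩
    obtain ⟨s, hs, l, hl0, hl1, rfl⟩ := mem_hull_insert hne hx
    have mem : ∀ p : ℝ × ℝ, (1 - l) • p + l • s ∈ convexHull ℝ (insert p S) := fun p =>
      (convex_convexHull ℝ _) (subset_convexHull ℝ _ (mem_insert _ _))
        (convexHull_mono (subset_insert _ _) hs) (by linarith) hl0 (by ring)
    obtain rfl : v = 1 - u := by linarith
    refine ⟨(Ψ ((1 - l) • p + l • s)).2, (Ψ ((1 - l) • q + l • s)).2, ⟨_, mem p, ?_⟩,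
      ⟨_, mem q, ?_⟩, ?_⟩
    · ext
      · simp [Ψ, aff, hd1, hd2]; ring
      · rfl
    · ext
      · simp [Ψ, aff, hd1, hd2]; ring
      · rfl
    · simp [Ψ, aff]; ring)
  simp only [Ψ, vol_aff] at main
  set D := ENNReal.ofReal |-d2 * d2 - d1 * d1| with hDD
  have D0 : D ≠ 0 := by
    rw [hDD]
    have : 0 < |-d2 * d2 - d1 * d1| := abs_pos.mpr (by nlinarith)
    simpa using this
  have D1 : D ≠ ⊤ := ENNReal.ofReal_ne_top
  show volume _ ≤ h
  rw [← ENNReal.mul_le_mul_iff_right D0 D1]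
  refine main.trans ?_
  have hp' : volume (convexHull ℝ (insert p S)) ≤ h := hp
  have hq' : volume (convexHull ℝ (insert q S)) ≤ h := hq
  calc _ ≤ ENNReal.ofReal u * (D * h) + ENNReal.ofReal v * (D * h) := by gcongr
    _ = D * h := by rw [← add_mul, ← ENNReal.ofReal_add hu hv, huv]; simp

end Pool.Agent.Lib.MP_9a49d2_co
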